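import Mathlib

set_option autoImplicit false

namespace Pool.Agent.Results.MP_35dbbb_co.C7

open SimpleGraph

/-- no path `v₁ … v₂ₜ` (`t ≥ 1`) has its first half coloured like its second half -/
def Nonrep {V α : Type} (G : SimpleGraph V) (c : V → α) : Prop :=
  ∀ s t : List V, s ≠ [] → (s ++ t).Nodup → (s ++ t).IsChain G.Adj → s.map c ≠ t.map c

/-- the Thue chromatic number -/
noncomputable def thue {V : Type} (G : SimpleGraph V) : ℕ := sInf {k | ∃ c : V → Fin k, Nonrep G c}

/-- the lexicographic product `G[H]` -/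
def lex {V W : Type} (G : SimpleGraph V) (H : SimpleGraph W) : SimpleGraph (V × W) where
  Adj x y := G.Adj x.1 y.1 ∨ (x.1 = y.1 ∧ H.Adj x.2 y.2)
  symm := ⟨fun _ _ h => h.imp (fun h => h.symm) fun h => ⟨h.1.symm, h.2.symm⟩⟩
  loopless := ⟨fun _ h => h.elim (fun h => h.ne rfl) fun h => h.2.ne rfl⟩

lemma Nonrep.comp {V α β : Type} {G : SimpleGraph V} {c : V → α} (h : Nonrep G c) {e : α → β}
    (he : Function.Injective e) : Nonrep G (e ∘ c) := fun s t h1 h2 h3 h4 =>
  h s t h1 h2 h3 (he.list_map (by simpa using h4))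

lemma nonrep_id {V : Type} (G : SimpleGraph V) : Nonrep G (id : V → V) := by
  intro s t h1 h2 _ h4
  simp only [List.map_id] at h4
  subst h4
  obtain ⟨a, ha⟩ := List.exists_mem_of_ne_nil s h1
  exact (List.nodup_append.1 h2).2.2 a ha a ha rfl

lemma le_thue {n : ℕ} (G : SimpleGraph (Fin n)) (k : ℕ) (h : ∀ c : Fin n → Fin k, ¬ Nonrep G c) :
    k + 1 ≤ thue G := by
  refine le_csInf ⟨n, id, nonrep_id G⟩ ?_
  rintro j ⟨c, hc⟩
  by_contra hj
  exact h _ (hc.comp (Fin.castLE_injective (by omega : j ≤ k)))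

def dfs {V : Type} [DecidableEq V] (A : V → V → Bool) (c : V → ℕ) (L : List V) (z : V) :
    ℕ → V → V → List V → Bool
  | 0, _, _, _ => true
  | f + 1, a, b, u => A a z || L.any fun x => A a x && !(u.contains x) && L.any fun y =>
      c x == c y && A b y && x != y && !(u.contains y) && dfs A c L z f x y (x :: y :: u)

lemma dfs_sound {V : Type} [DecidableEq V] (G : SimpleGraph V) (A : V → V → Bool)
    (hA : ∀ x y, G.Adj x y → A x y = true) (c : V → ℕ) (L : List V) (hL : ∀ x, x ∈ L) (z : V)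
    (r : List V) : ∀ (f : ℕ) (s t : List V) (a b : V) (u : List V),
      (a :: s ++ z :: r).IsChain G.Adj → (b :: t).IsChain G.Adj → s.map c = t.map c →
      (s ++ t).Nodup → (∀ x ∈ s ++ t, x ∉ u) → dfs A c L z f a b u = true := by
  intro f
  induction f with
  | zero => intros; rfl
  | succ f ih =>
    intro s t a b u h1 h2 h3 h4 h5
    rcases s with _ | ⟨x, s⟩
    · simp only [dfs, Bool.or_eq_true]
      exact Or.inl (hA _ _ (by simpa using (List.isChain_cons_cons.1 h1).1))
    rcases t with _ | ⟨y, t⟩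
    · simp at h3
    simp only [List.map_cons, List.cons.injEq] at h3
    have h1' := List.isChain_cons_cons.1 h1
    have h2' := List.isChain_cons_cons.1 h2
    have hx := h5 x (by simp)
    have hy := h5 y (by simp)
    have hn : x ≠ y ∧ (s ++ t).Nodup ∧ ∀ w ∈ s ++ t, w ≠ x ∧ w ≠ y := by
      simp only [List.cons_append, List.nodup_cons, List.mem_append, List.mem_cons,
        List.nodup_append] at h4 ⊢
      grind
    simp only [dfs, Bool.or_eq_true, List.any_eq_true, Bool.and_eq_true]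
    refine Or.inr ⟨x, hL x, ⟨hA _ _ h1'.1, by simpa using hx⟩, y, hL y,
      ⟨⟨⟨by simp [h3.1], hA _ _ h2'.1⟩, by simpa using hn.1⟩, by simpa using hy⟩,
      ih s t x y _ h1'.2 h2'.2 h3.2 hn.2.1 fun w hw => ?_⟩
    have := h5 w (by simp only [List.cons_append, List.mem_append, List.mem_cons] at hw ⊢; tauto)
    have := hn.2.2 w hw
    simp only [List.mem_cons]
    tauto

def col (x : Fin 7 × Fin 2) : Fin 7 :=
  ![![0, 1], ![2, 3], ![0, 4], ![1, 5], ![4, 6], ![2, 3], ![5, 6]] x.1 x.2

def A (x y : Fin 7 × Fin 2) : Bool :=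
  (x.1.val + 1) % 7 == y.1.val || (y.1.val + 1) % 7 == x.1.val || x.1 == y.1

def L : List (Fin 7 × Fin 2) := (List.finRange 7) ×ˢ (List.finRange 2)

lemma chk : ∀ a b : Fin 7 × Fin 2, a ≠ b → (col a).val = (col b).val →
    dfs A (fun x => (col x).val) L b 8 a b [a, b] = false := by decide +kernel

lemma upper : Nonrep (lex (cycleGraph 7) (⊤ : SimpleGraph (Fin 2))) col := by
  intro s t h1 h2 h3 h4
  rcases s with _ | ⟨a, s⟩
  · exact h1 rfl
  rcases t with _ | ⟨b, t⟩
  · simp at h4
  simp only [List.map_cons, List.cons.injEq] at h4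
  have hn : a ≠ b ∧ (s ++ t).Nodup ∧ ∀ w ∈ s ++ t, w ∉ [a, b] := by
    simp only [List.cons_append, List.nodup_cons, List.mem_append, List.mem_cons,
      List.nodup_append] at h2 ⊢
    grind
  have hA : ∀ x y, (lex (cycleGraph 7) (⊤ : SimpleGraph (Fin 2))).Adj x y → A x y = true := by
    unfold lex; decide
  have := dfs_sound _ A hA (fun x => (col x).val) L (by decide) b t 8 s t a b [a, b] h3
    (List.isChain_append.1 h3).2.1 (by
      have := congrArg (List.map Fin.val) h4.2
      simpa [Function.comp_def] using this) hn.2.1 hn.2.2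
  rw [chk a b hn.1 (by rw [h4.1])] at this
  exact absurd this (by decide)

lemma c7 : ∀ c : Fin 7 → Fin 3, ¬ Nonrep (cycleGraph 7) c := by
  intro c h
  have key : ∀ a b c d e f g : Fin 3, ∃ i : Fin 7,
      [i].map ![a, b, c, d, e, f, g] = [i + 1].map ![a, b, c, d, e, f, g] ∨
      [i, i + 1].map ![a, b, c, d, e, f, g] = [i + 2, i + 3].map ![a, b, c, d, e, f, g] ∨
      [i, i + 1, i + 2].map ![a, b, c, d, e, f, g] =
        [i + 3, i + 4, i + 5].map ![a, b, c, d, e, f, g] := by decide +kernel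
  obtain ⟨i, hi⟩ := key (c 0) (c 1) (c 2) (c 3) (c 4) (c 5) (c 6)
  have e : ![c 0, c 1, c 2, c 3, c 4, c 5, c 6] = c := by
    funext j; fin_cases j <;> rfl
  rw [e] at hi
  rcases hi with hi | hi | hi
  · exact h _ _ (by simp) (by clear hi; revert i; decide) (by clear hi; revert i; decide) hi
  · exact h _ _ (by simp) (by clear hi; revert i; decide) (by clear hi; revert i; decide) hi
  · exact h _ _ (by simp) (by clear hi; revert i; decide) (by clear hi; revert i; decide) hi

lemma k2 : ∀ c : Fin 2 → Fin 1, ¬ Nonrep (⊤ : SimpleGraph (Fin 2)) c := fun c h =>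
  h [0] [1] (by simp) (by decide) (by simp) (by simp [Subsingleton.elim (c 0) (c 1)])

/-- `π(C₇[K₂]) ≤ 7 < 8 ≤ π(K₂) + (π(C₇) - 1) * 2`. -/
theorem result : ∃ (V W : Type) (_ : Fintype V) (_ : Fintype W) (G : SimpleGraph V)
    (H : SimpleGraph W), G.Connected ∧ H.Connected ∧
      thue (lex G H) < thue H + (thue G - 1) * Fintype.card W := by
  refine ⟨Fin 7, Fin 2, inferInstance, inferInstance, cycleGraph 7, ⊤, cycleGraph_connected,
    connected_top, ?_⟩
  have h1 : thue (lex (cycleGraph 7) (⊤ : SimpleGraph (Fin 2))) ≤ 7 := Nat.sInf_le ⟨col, upper⟩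
  have h2 := le_thue _ _ c7
  have h3 := le_thue _ _ k2
  simp only [Fintype.card_fin]
  omega

end Pool.Agent.Results.MP_35dbbb_co.C7
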